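import Pool.Agent.Helper47.Gom2.Sem

set_option autoImplicit false

namespace Pool.Agent.Gomoku

open Finset

/-! # Third semantics: trees of protected pairs

As the second semantics, but after the exchange in a protected pair there may be a new protected
pair (the trees `PT`). Lines of fours are valid in larger contexts (`CtxL`): there the exchange
never takes place, since every reply that does not block a four loses at once. -/

/-- trees of protected pairs -/
inductive PT
  | none : PT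
  | pair (p q : Cell) (t1 t2 : PT) : PT

/-- all cells of the tree -/
def PT.cells : PT → Finset Cell
  | .none => ∅
  | .pair p q t1 t2 => insert p (insert q (t1.cells ∪ t2.cells))

/-- the first pair -/
def PT.top : PT → Option (Cell × Cell)
  | .none => Option.none
  | .pair p q _ _ => some (p, q)

/-- the context condition; `P`: tree of protected pairs -/
def Ctx3 (B W K : Finset Cell) (cap : Finset Cell → ℕ) : PT → Finset Cell → Finset Cell → Prop
  | .none, b, w => B ⊆ b ∧ Disjoint b w ∧ Disjoint (w \ W) K ∧ CapOK cap (w \ W) b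
  | .pair p q t1 t2, b, w => (p ≠ q ∧ p ∉ K ∧ q ∉ K ∧ p ∉ w ∧ q ∉ w ∧ p ∉ b ∧ q ∉ b) ∧
      (B ⊆ b ∧ Disjoint b w ∧ Disjoint (w \ W) K) ∧ CapOKP cap (w \ W) b p q ∧
      Ctx3 B W K cap t1 (insert q b) (insert p w) ∧ Ctx3 B W K cap t2 (insert p b) (insert q w)

/-- the depth of the tree -/
def PT.dep : PT → ℕ
  | .none => 0
  | .pair _ _ t1 t2 => max t1.dep t2.dep + 1

def Valid3 (D : Data) : Prop :=
  ∀ d, ∃ n, ∀ P : PT, P.dep ≤ d → ∀ b w, Ctx3 D.B D.W D.K D.cap P b w → Win n b w

def AndValid3 (D : Data) : Prop :=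
  ∀ d, ∃ n, ∀ P : PT, P.dep ≤ d → ∀ b w, Ctx3 D.B D.W D.K D.cap P b w → AndWin n b w

/-- the context condition for lines of fours -/
def CtxL (B W K : Finset Cell) (cap : Finset Cell → ℕ) (b w : Finset Cell) :
    Option (Cell × Cell) → Prop
  | none => B ⊆ b ∧ Disjoint b w ∧ Disjoint (w \ W) K ∧ CapOK cap (w \ W) b
  | some (p, q) => (p ≠ q ∧ p ∉ K ∧ q ∉ K ∧ p ∉ w ∧ q ∉ w ∧ p ∉ b ∧ q ∉ b) ∧
      B ⊆ b ∧ Disjoint b w ∧ Disjoint (w \ W) K ∧ CapOKP cap (w \ W) b p q

def ValidL (D : Data) : Prop :=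
  ∃ n, ∀ b w P, CtxL D.B D.W D.K D.cap b w P → Win n b w

def AndValidL (D : Data) : Prop :=
  ∃ n, ∀ b w P, CtxL D.B D.W D.K D.cap b w P → AndWin n b w

section
variable {B W K : Finset Cell} {cap : Finset Cell → ℕ} {b w : Finset Cell} {P : PT}
  {R : Option (Cell × Cell)}

theorem Ctx3.basic (h : Ctx3 B W K cap P b w) : B ⊆ b ∧ Disjoint b w ∧ Disjoint (w \ W) K := by
  cases P with
  | none => exact ⟨h.1, h.2.1, h.2.2.1⟩
  | pair p q t1 t2 => exact h.2.1

theorem CtxL.basic (h : CtxL B W K cap b w R) : B ⊆ b ∧ Disjoint b w ∧ Disjoint (w \ W) K := by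
  rcases R with _ | ⟨p, q⟩
  · exact ⟨h.1, h.2.1, h.2.2.1⟩
  · exact ⟨h.2.1, h.2.2.1, h.2.2.2.1⟩

theorem Ctx3.ctxL (h : Ctx3 B W K cap P b w) : CtxL B W K cap b w P.top := by
  cases P with
  | none => exact h
  | pair p q t1 t2 => exact ⟨h.1, h.2.1.1, h.2.1.2.1, h.2.1.2.2, h.2.2.1⟩

theorem Ctx3.cells_free : ∀ {P : PT} {b w : Finset Cell}, Ctx3 B W K cap P b w →
    ∀ c ∈ P.cells, c ∉ K ∧ c ∉ b ∧ c ∉ w := by
  intro P
  induction P with
  | none => intro b w _ c hc; simp [PT.cells] at hc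
  | pair p q t1 t2 ih1 ih2 =>
    rintro b w ⟨⟨hpq, hpK, hqK, hpw, hqw, hpb, hqb⟩, -, -, h1, h2⟩ c hc
    unfold PT.cells at hc
    rw [Finset.mem_insert, Finset.mem_insert, Finset.mem_union] at hc
    rcases hc with rfl | rfl | hc | hc
    · exact ⟨hpK, hpb, hpw⟩
    · exact ⟨hqK, hqb, hqw⟩
    · obtain ⟨g1, g2, g3⟩ := ih1 h1 c hc
      exact ⟨g1, fun h => g2 (Finset.mem_insert_of_mem h), fun h => g3 (Finset.mem_insert_of_mem h)⟩
    · obtain ⟨g1, g2, g3⟩ := ih2 h2 c hc
      exact ⟨g1, fun h => g2 (Finset.mem_insert_of_mem h), fun h => g3 (Finset.mem_insert_of_mem h)⟩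

theorem transfer_key {W K W' Q : Finset Cell} {cap cap' : Finset Cell → ℕ}
    {w1 : Finset Cell} (hX1 : Disjoint (w1 \ W) K) {L : Finset Cell}
    (hc : (L ∩ (w1 \ W)).card ≤ cap L)
    (hcap : (L ∩ ((W ∪ Q) \ W')).card + ceff K cap L ≤ cap' L) :
    (L ∩ ((w1 ∪ Q) \ W')).card ≤ cap' L := by
  have sub : (w1 ∪ Q) \ W' ⊆ ((W ∪ Q) \ W') ∪ (w1 \ W) := by
    intro c hc
    rw [Finset.mem_sdiff, Finset.mem_union] at hc
    rw [Finset.mem_union, Finset.mem_sdiff, Finset.mem_union, Finset.mem_sdiff]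
    by_cases hcW : c ∈ W
    · exact Or.inl ⟨Or.inl hcW, hc.2⟩
    · rcases hc.1 with h1 | h1
      · exact Or.inr ⟨h1, hcW⟩
      · exact Or.inl ⟨Or.inr h1, hc.2⟩
  have h0 : (L ∩ ((w1 ∪ Q) \ W')).card ≤ (L ∩ (((W ∪ Q) \ W') ∪ (w1 \ W))).card :=
    Finset.card_le_card (Finset.inter_subset_inter_left sub)
  have h1 := card_inter_union_le (L := L) (A := (W ∪ Q) \ W') (X := w1 \ W)
  have h2 := card_inter_le_sdiff (L := L) hX1
  have h3 : (L ∩ (w1 \ W)).card ≤ ceff K cap L := le_min hc h2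
  omega

theorem transfer_basic {B' W' K' Z Q : Finset Cell}
    (h : B ⊆ b ∧ Disjoint b w ∧ Disjoint (w \ W) K)
    (hB : B' ⊆ b ∪ Z) (hK : K' ⊆ K)
    (hZw : Disjoint Z w) (hZQ : Disjoint Z Q) (hbQ : Disjoint b Q)
    (hA : Disjoint ((W ∪ Q) \ W') K') :
    B' ⊆ b ∪ Z ∧ Disjoint (b ∪ Z) (w ∪ Q) ∧ Disjoint ((w ∪ Q) \ W') K' := by
  obtain ⟨-, hbw, hXK⟩ := h
  refine ⟨hB, ?_, ?_⟩
  · rw [Finset.disjoint_union_left, Finset.disjoint_union_right, Finset.disjoint_union_right]
    exact ⟨⟨hbw, hbQ⟩, ⟨hZw, hZQ⟩⟩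
  · have sub : (w ∪ Q) \ W' ⊆ ((W ∪ Q) \ W') ∪ (w \ W) := by
      intro c hc
      rw [Finset.mem_sdiff, Finset.mem_union] at hc
      rw [Finset.mem_union, Finset.mem_sdiff, Finset.mem_union, Finset.mem_sdiff]
      by_cases hcW : c ∈ W
      · exact Or.inl ⟨Or.inl hcW, hc.2⟩
      · rcases hc.1 with h1 | h1
        · exact Or.inr ⟨h1, hcW⟩
        · exact Or.inl ⟨Or.inr h1, hc.2⟩
    refine Finset.disjoint_of_subset_left sub ?_
    rw [Finset.disjoint_union_left]
    exact ⟨hA, Finset.disjoint_of_subset_right hK hXK⟩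

/-- Transfer of a context to other data, with additional black stones `Z` and additional
white stones `Q`. -/
theorem Ctx3.transfer {B' W' K' Z Q : Finset Cell} {cap' : Finset Cell → ℕ} (hK : K' ⊆ K)
    (hZQ : Disjoint Z Q) (hA : Disjoint ((W ∪ Q) \ W') K') :
    ∀ {P : PT} {b w : Finset Cell}, Ctx3 B W K cap P b w → B' ⊆ b ∪ Z → Disjoint Z w →
    Disjoint b Q → Disjoint P.cells Z → Disjoint P.cells Q →
    (∀ L, IsLine L → Disjoint L (b ∪ Z) →
      (L ∩ ((W ∪ Q) \ W')).card + ceff K cap L ≤ cap' L) →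
    Ctx3 B' W' K' cap' P (b ∪ Z) (w ∪ Q) := by
  intro P
  induction P with
  | none =>
    intro b w h hB hZw hbQ _ _ hcap
    obtain ⟨g1, g2, g3⟩ := transfer_basic h.basic hB hK hZw hZQ hbQ hA
    refine ⟨g1, g2, g3, fun L hL hd => ?_⟩
    exact transfer_key h.basic.2.2
      (h.2.2.2 L hL (Finset.disjoint_of_subset_right Finset.subset_union_left hd)) (hcap L hL hd)
  | pair p q t1 t2 ih1 ih2 =>
    intro b w h hB hZw hbQ hPZ hPQ hcap
    obtain ⟨⟨hpq, hpK, hqK, hpw, hqw, hpb, hqb⟩, hbas, hP, h1, h2⟩ := h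
    unfold PT.cells at hPZ hPQ
    rw [Finset.disjoint_insert_left, Finset.disjoint_insert_left,
      Finset.disjoint_union_left] at hPZ hPQ
    obtain ⟨hpZ, hqZ, hZ1, hZ2⟩ := hPZ
    obtain ⟨hpQ, hqQ, hQ1, hQ2⟩ := hPQ
    obtain ⟨g1, g2, g3⟩ := transfer_basic hbas hB hK hZw hZQ hbQ hA
    have mono : ∀ q : Cell, b ∪ Z ⊆ insert q b ∪ Z := fun q =>
      Finset.union_subset_union_left (Finset.subset_insert _ _)
    refine ⟨⟨hpq, fun hc => hpK (hK hc), fun hc => hqK (hK hc), ?_, ?_, ?_, ?_⟩, ⟨g1, g2, g3⟩,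
      ?_, ?_, ?_⟩
    · rw [Finset.mem_union]; tauto
    · rw [Finset.mem_union]; tauto
    · rw [Finset.mem_union]; tauto
    · rw [Finset.mem_union]; tauto
    · intro L hL hd hn
      exact transfer_key hbas.2.2
        (hP L hL (Finset.disjoint_of_subset_right Finset.subset_union_left hd) hn) (hcap L hL hd)
    · rw [← Finset.insert_union, ← Finset.insert_union]
      refine ih1 h1 (hB.trans (mono q)) ?_ ?_ hZ1 hQ1 fun L hL hd =>
        hcap L hL (Finset.disjoint_of_subset_right (mono q) hd)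
      · rw [Finset.disjoint_insert_right]; exact ⟨hpZ, hZw⟩
      · rw [Finset.disjoint_insert_left]; exact ⟨hqQ, hbQ⟩
    · rw [← Finset.insert_union, ← Finset.insert_union]
      refine ih2 h2 (hB.trans (mono p)) ?_ ?_ hZ2 hQ2 fun L hL hd =>
        hcap L hL (Finset.disjoint_of_subset_right (mono p) hd)
      · rw [Finset.disjoint_insert_right]; exact ⟨hqZ, hZw⟩
      · rw [Finset.disjoint_insert_left]; exact ⟨hpQ, hbQ⟩

theorem CtxL.transfer (h : CtxL B W K cap b w R)
    {B' W' K' Z Q : Finset Cell} {cap' : Finset Cell → ℕ}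
    (hB : B' ⊆ b ∪ Z) (hK : K' ⊆ K)
    (hZw : Disjoint Z w) (hZQ : Disjoint Z Q) (hbQ : Disjoint b Q)
    (hA : Disjoint ((W ∪ Q) \ W') K')
    (hPZ : ∀ p q, R = some (p, q) → (p ∉ Z ∧ q ∉ Z) ∧ (p ∉ Q ∧ q ∉ Q))
    (hcap : ∀ L, IsLine L → Disjoint L (b ∪ Z) →
      (L ∩ ((W ∪ Q) \ W')).card + ceff K cap L ≤ cap' L) :
    CtxL B' W' K' cap' (b ∪ Z) (w ∪ Q) R := by
  have hbas := h.basic
  obtain ⟨g1, g2, g3⟩ := transfer_basic hbas hB hK hZw hZQ hbQ hA
  rcases R with _ | ⟨p, q⟩
  · refine ⟨g1, g2, g3, fun L hL hd => ?_⟩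
    exact transfer_key hbas.2.2
      (h.2.2.2 L hL (Finset.disjoint_of_subset_right Finset.subset_union_left hd)) (hcap L hL hd)
  · obtain ⟨⟨hpq, hpK, hqK, hpw, hqw, hpb, hqb⟩, -, -, -, hP⟩ := h
    obtain ⟨⟨hpZ, hqZ⟩, hpQ, hqQ⟩ := hPZ p q rfl
    refine ⟨⟨hpq, fun hc => hpK (hK hc), fun hc => hqK (hK hc), ?_, ?_, ?_, ?_⟩, g1, g2, g3, ?_⟩
    · rw [Finset.mem_union]; tauto
    · rw [Finset.mem_union]; tauto
    · rw [Finset.mem_union]; tauto
    · rw [Finset.mem_union]; tauto
    · intro L hL hd hn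
      exact transfer_key hbas.2.2
        (hP L hL (Finset.disjoint_of_subset_right Finset.subset_union_left hd) hn) (hcap L hL hd)

/-- no five for White after any reply -/
theorem CtxL.no_five (h : CtxL B W K cap b w R)
    (hchk : ∀ L, IsLine L → Disjoint L B → (L ∩ W).card + ceff K cap L ≤ 3)
    {y : Cell} (hy : y ∉ b) : ¬ HasFive (insert y w) := by
  rintro ⟨L, hL, hLS⟩
  obtain ⟨hB, hbw, hXK⟩ := h.basic
  have hd : Disjoint L b := by
    rw [Finset.disjoint_left]
    intro c hc hc'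
    have h1 := hLS hc
    rw [Finset.mem_insert] at h1
    rcases h1 with rfl | h1
    · exact hy hc'
    · exact Finset.disjoint_left.1 hbw hc' h1
  have hc := hchk L hL (Finset.disjoint_of_subset_right hB hd)
  have h5 := hL.card
  have hle : L.card ≤ (L ∩ W).card + (L ∩ (w \ W)).card + 1 := by
    have : L ⊆ insert y ((L ∩ W) ∪ (L ∩ (w \ W))) := by
      intro c hc
      have h1 := hLS hc
      simp only [Finset.mem_insert, Finset.mem_union, Finset.mem_inter, Finset.mem_sdiff] at h1 ⊢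
      tauto
    calc L.card ≤ (insert y ((L ∩ W) ∪ (L ∩ (w \ W)))).card := Finset.card_le_card this
      _ ≤ ((L ∩ W) ∪ (L ∩ (w \ W))).card + 1 := Finset.card_insert_le _ _
      _ ≤ (L ∩ W).card + (L ∩ (w \ W)).card + 1 := by
        have := Finset.card_union_le (L ∩ W) (L ∩ (w \ W))
        omega
  have h2 := card_inter_le_sdiff (L := L) hXK
  have hcapL : (L ∩ (w \ W)).card ≤ cap L := by
    rcases R with _ | ⟨p, q⟩
    · exact h.2.2.2 L hL hd
    · obtain ⟨⟨hpq, hpK, hqK, hpw, hqw, hpb, hqb⟩, -, -, -, hP⟩ := h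
      apply hP L hL hd
      rintro ⟨hp, hq⟩
      have h1 := hLS hp
      have h1' := hLS hq
      rw [Finset.mem_insert] at h1 h1'
      rcases h1 with h1 | h1
      · rcases h1' with h1' | h1'
        · exact hpq (h1.trans h1'.symm)
        · exact hqw h1'
      · exact hpw h1
  have h3 : (L ∩ (w \ W)).card ≤ ceff K cap L := le_min hcapL h2
  omega

end

theorem exists_bound3 (d : ℕ) (I : List Data) (hI : ∀ D ∈ I, Valid3 D) :
    ∃ n, ∀ D ∈ I, ∀ P : PT, P.dep ≤ d → ∀ b w, Ctx3 D.B D.W D.K D.cap P b w → Win n b w := by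
  induction I with
  | nil => exact ⟨0, fun D hD => by simp at hD⟩
  | cons D I ih =>
    obtain ⟨n, hn⟩ := ih fun D' hD' => hI D' (by simp [hD'])
    obtain ⟨m, hm⟩ := hI D (by simp) d
    refine ⟨max n m, fun D' hD' P hP b w hE => ?_⟩
    simp only [List.mem_cons] at hD'
    rcases hD' with rfl | hD'
    · exact (hm P hP b w hE).mono (le_max_right _ _)
    · exact (hn D' hD' P hP b w hE).mono (le_max_left _ _)

theorem exists_boundL (J : List Data) (hJ : ∀ D ∈ J, ValidL D) :
    ∃ n, ∀ D ∈ J, ∀ b w R, CtxL D.B D.W D.K D.cap b w R → Win n b w := by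
  induction J with
  | nil => exact ⟨0, fun D hD => by simp at hD⟩
  | cons D J ih =>
    obtain ⟨n, hn⟩ := ih fun D' hD' => hJ D' (by simp [hD'])
    obtain ⟨m, hm⟩ := hJ D (by simp)
    refine ⟨max n m, fun D' hD' b w R hE => ?_⟩
    simp only [List.mem_cons] at hD'
    rcases hD' with rfl | hD'
    · exact (hm b w R hE).mono (le_max_right _ _)
    · exact (hn D' hD' b w R hE).mono (le_max_left _ _)

/-- The general rule for an AND node: replies in the zone may be answered by items, all the other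
ones by lines. -/
theorem andValid3_of_items {B W K : Finset Cell} {cap : Finset Cell → ℕ}
    (hchk : ∀ L, IsLine L → Disjoint L B → (L ∩ W).card + ceff K cap L ≤ 3)
    (I : List Data) (hI : ∀ D ∈ I, Valid3 D) (J : List Data) (hJ : ∀ D ∈ J, ValidL D)
    (hcov : ∀ y, y ∉ B → ImmWin2 B W K y ∨ (y ∈ K ∧ ∃ D ∈ I, Covers2 B W K cap D y) ∨
      ∃ D ∈ J, Covers2 B W K cap D y) :
    AndValid3 ⟨B, W, K, cap⟩ := by
  obtain ⟨m, hm⟩ := exists_boundL J hJ
  -- replies outside of the first pair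
  have main : ∀ d, ∃ n, ∀ P : PT, P.dep ≤ d → ∀ b w, Ctx3 B W K cap P b w → ∀ y, y ∉ b → y ∉ w →
      (∀ p q, P.top = some (p, q) → y ≠ p ∧ y ≠ q) →
      ¬ HasFive (insert y w) ∧ Win n b (insert y w) := by
    intro d
    obtain ⟨n, hn⟩ := exists_bound3 d I hI
    refine ⟨max (n + 1) (m + 1), fun P hdP b w hE y hyb hyw hyP => ?_⟩
    obtain ⟨hB, hbw, hXK⟩ := hE.basic
    refine ⟨hE.ctxL.no_five hchk hyb, ?_⟩
    have e : W ∪ {y} = insert y W := by
      rw [Finset.union_comm, ← Finset.insert_eq]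
    have e2 : w ∪ {y} = insert y w := by
      rw [Finset.union_comm, ← Finset.insert_eq]
    rcases hcov y (fun h => hyb (hB h)) with ⟨t, htK, htW, hty, h5⟩ | ⟨hyK, D, hD, hc⟩ | ⟨D, hD, hc⟩
    · refine (win_of_imm hB h5 ?_ n).mono (le_max_left _ _)
      rw [Finset.mem_insert, not_or]
      refine ⟨hty, fun h => ?_⟩
      exact Finset.disjoint_left.1 hXK (Finset.mem_sdiff.2 ⟨h, htW⟩) htK
    · obtain ⟨hDB, hWK', hKK, hcap⟩ := hc
      have htr : Ctx3 D.B D.W D.K D.cap P (b ∪ ∅) (w ∪ {y}) := by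
        refine Ctx3.transfer (Z := ∅) (Q := {y}) hKK (Finset.disjoint_empty_left _) ?_ hE ?_
          (Finset.disjoint_empty_left _) ?_ (Finset.disjoint_empty_right _) ?_ ?_
        · rw [e]; exact hWK'
        · rw [Finset.union_empty]; exact hDB.trans hB
        · rw [Finset.disjoint_singleton_right]; exact hyb
        · rw [Finset.disjoint_singleton_right]
          exact fun h => (hE.cells_free y h).1 hyK
        · intro L hL hd
          rw [e]
          apply hcap L hL
          rw [Finset.union_empty] at hd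
          exact Finset.disjoint_of_subset_right hB hd
      have hw := hn D hD P hdP _ _ htr
      rw [Finset.union_empty, e2] at hw
      exact hw.mono ((Nat.le_succ n).trans (le_max_left _ _))
    · obtain ⟨hDB, hWK', hKK, hcap⟩ := hc
      have htr : CtxL D.B D.W D.K D.cap (b ∪ ∅) (w ∪ {y}) P.top := by
        refine hE.ctxL.transfer (Z := ∅) (Q := {y}) ?_ hKK (Finset.disjoint_empty_left _)
          (Finset.disjoint_empty_left _) ?_ ?_ ?_ ?_
        · rw [Finset.union_empty]; exact hDB.trans hB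
        · rw [Finset.disjoint_singleton_right]; exact hyb
        · rw [e]; exact hWK'
        · intro p q hP
          obtain ⟨h1, h2⟩ := hyP p q hP
          refine ⟨⟨Finset.notMem_empty _, Finset.notMem_empty _⟩, ?_, ?_⟩
          · rw [Finset.mem_singleton]; exact fun h => h1 h.symm
          · rw [Finset.mem_singleton]; exact fun h => h2 h.symm
        · intro L hL hd
          rw [e]
          apply hcap L hL
          rw [Finset.union_empty] at hd
          exact Finset.disjoint_of_subset_right hB hd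
      have hw := hm D hD _ _ _ htr
      rw [Finset.union_empty, e2] at hw
      exact hw.mono ((Nat.le_succ m).trans (le_max_right _ _))
  -- induction on the depth
  intro d
  induction d with
  | zero =>
    obtain ⟨n, hn⟩ := main 0
    refine ⟨n, fun P hd b w hE y hyb hyw => ?_⟩
    cases P with
    | none => exact hn PT.none hd b w hE y hyb hyw (by intro p q h; simp [PT.top] at h)
    | pair p q t1 t2 => simp [PT.dep] at hd
  | succ d ih =>
    obtain ⟨n0, hn0⟩ := main (d + 1)
    obtain ⟨n1, hn1⟩ := ih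
    refine ⟨max n0 (n1 + 1), fun P hd b w hE y hyb hyw => ?_⟩
    cases P with
    | none =>
      obtain ⟨g1, g2⟩ := hn0 PT.none hd b w hE y hyb hyw (by intro p q h; simp [PT.top] at h)
      exact ⟨g1, g2.mono (le_max_left _ _)⟩
    | pair p q t1 t2 =>
      simp only at hE hn1
      obtain ⟨⟨hpq, hpK, hqK, hpw, hqw, hpb, hqb⟩, -, -, h1, h2⟩ := id hE
      have hd' : max t1.dep t2.dep ≤ d := Nat.le_of_succ_le_succ hd
      by_cases hyp : y = p ∨ y = q
      · refine ⟨hE.ctxL.no_five hchk hyb, ?_⟩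
        rcases hyp with rfl | rfl
        · refine Win.mono (le_max_right _ _) (Win.of_and (b := q) hqb ?_ ?_)
          · rw [Finset.mem_insert, not_or]
            exact ⟨hpq.symm, hqw⟩
          · exact hn1 t1 ((le_max_left _ _).trans hd') _ _ h1
        · refine Win.mono (le_max_right _ _) (Win.of_and (b := p) hpb ?_ ?_)
          · rw [Finset.mem_insert, not_or]
            exact ⟨hpq, hpw⟩
          · exact hn1 t2 ((le_max_right _ _).trans hd') _ _ h2
      · rw [not_or] at hyp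
        obtain ⟨g1, g2⟩ := hn0 _ hd b w hE y hyb hyw (by
          intro p' q' h
          simp only [PT.top, Option.some.injEq, Prod.mk.injEq] at h
          obtain ⟨rfl, rfl⟩ := h
          exact hyp)
        exact ⟨g1, g2.mono (le_max_left _ _)⟩

/-- The rule for an AND node; replies on stones of `W` need no care. -/
theorem andValid3_of_items' {B W K : Finset Cell} {cap : Finset Cell → ℕ}
    (hchk : ∀ L, IsLine L → Disjoint L B → (L ∩ W).card + ceff K cap L ≤ 3)
    (I : List Data) (hI : ∀ D ∈ I, Valid3 D) (J : List Data) (hJ : ∀ D ∈ J, ValidL D)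
    (hcov : ∀ y, y ∉ B → y ∉ W → (y ∈ K ∧ ∃ D ∈ I, Covers2 B W K cap D y) ∨
      ∃ D ∈ J, Covers2 B W K cap D y)
    (hout : ∃ z, z ∉ B ∧ z ∉ W ∧ z ∉ K) :
    AndValid3 ⟨B, W, K, cap⟩ := by
  apply andValid3_of_items hchk I hI J hJ
  intro y hyB
  right
  by_cases hyW : y ∈ W
  · obtain ⟨z, hzB, hzW, hzK⟩ := hout
    rcases hcov z hzB hzW with ⟨h, -⟩ | ⟨D, hD, hc⟩
    · exact absurd h hzK
    · exact Or.inr ⟨D, hD, hc.of_mem hyW⟩
  · exact hcov y hyB hyW

/-- a finite zone always misses a free cell -/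
theorem exists_free3 (B W K : Finset Cell) : ∃ z, z ∉ B ∧ z ∉ W ∧ z ∉ K := by
  obtain ⟨z, hz⟩ := exists_free (B ∪ (W ∪ K))
  rw [Finset.mem_union, Finset.mem_union] at hz
  exact ⟨z, by tauto, by tauto, by tauto⟩

/-- The OR node: Black plays `c`. -/
theorem valid3_of_and {B W K K' : Finset Cell} {cap cap' : Finset Cell → ℕ} {c : Cell}
    (hcW : c ∉ W) (hcK : c ∈ K) (hKK : K' ⊆ K)
    (hcap : ∀ L, IsLine L → Disjoint L (insert c B) → ceff K cap L ≤ cap' L)
    (h : AndValid3 ⟨insert c B, W, K', cap'⟩) : Valid3 ⟨B, W, K, cap⟩ := by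
  intro d
  obtain ⟨n, hn⟩ := h d
  refine ⟨n + 1, fun P hdP b w hE => ?_⟩
  simp only at hE hn
  obtain ⟨hB, hbw, hXK⟩ := hE.basic
  -- the move z: c if c is free, otherwise any free cell
  have main : ∀ z, z ∉ b → z ∉ w → z ∉ P.cells →
      insert c B ⊆ insert z b → Win (n+1) b w := by
    intro z hzb hzw hzP hsub
    apply Win.of_and hzb hzw
    have e : b ∪ {z} = insert z b := by
      rw [Finset.union_comm, ← Finset.insert_eq]
    have htr : Ctx3 (insert c B) W K' cap' P (b ∪ {z}) (w ∪ ∅) := by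
      refine Ctx3.transfer (Z := {z}) (Q := ∅) hKK (Finset.disjoint_empty_right _) ?_ hE
        (by rwa [e]) ?_ (Finset.disjoint_empty_right _) ?_ (Finset.disjoint_empty_right _) ?_
      · rw [Finset.union_empty, Finset.sdiff_self]; exact Finset.disjoint_empty_left _
      · rw [Finset.disjoint_singleton_left]; exact hzw
      · rw [Finset.disjoint_singleton_right]; exact hzP
      · intro L hL hd
        rw [Finset.union_empty, Finset.sdiff_self, Finset.inter_empty, Finset.card_empty,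
          Nat.zero_add]
        apply hcap L hL
        rw [e] at hd
        exact Finset.disjoint_of_subset_right hsub hd
    have := hn P hdP _ _ htr
    rwa [e, Finset.union_empty] at this
  by_cases hcb : c ∈ b
  · obtain ⟨z, hz⟩ := exists_free (b ∪ (w ∪ P.cells))
    rw [Finset.mem_union, Finset.mem_union, not_or, not_or] at hz
    refine main z hz.1 hz.2.1 hz.2.2 ?_
    rw [Finset.insert_subset_iff]
    exact ⟨Finset.mem_insert_of_mem hcb, hB.trans (Finset.subset_insert _ _)⟩
  · refine main c hcb ?_ ?_ (Finset.insert_subset_insert _ hB)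
    · intro h
      exact Finset.disjoint_left.1 hXK (Finset.mem_sdiff.2 ⟨h, hcW⟩) hcK
    · exact fun h => (hE.cells_free c h).1 hcK

/-- FIVE rule. -/
theorem valid3_of_five {B W K : Finset Cell} {cap : Finset Cell → ℕ} {c : Cell}
    (hcW : c ∉ W) (hcK : c ∈ K) (h : HasFive (insert c B)) :
    Valid3 ⟨B, W, K, cap⟩ := by
  intro d
  refine ⟨1, fun P _ b w hE => ?_⟩
  obtain ⟨hB, hbw, hXK⟩ := hE.basic
  refine win_of_imm hB h ?_ 0
  intro h1
  exact Finset.disjoint_left.1 hXK (Finset.mem_sdiff.2 ⟨h1, hcW⟩) hcK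

/-- The FOUR rule: `insert t B` contains a five; all replies other than `t` lose at once. -/
theorem andValid3_four {B W K K' : Finset Cell} {cap cap' : Finset Cell → ℕ} {t : Cell}
    (htW : t ∉ W) (htK : t ∈ K) (h5 : HasFive (insert t B))
    (hchk : ∀ L, IsLine L → Disjoint L B → (L ∩ W).card + ceff K cap L ≤ 3)
    (hKK : K' ⊆ K) (hcap : ∀ L, IsLine L → Disjoint L B → ceff K cap L ≤ cap' L)
    (h : Valid3 ⟨B, insert t W, K', cap'⟩) : AndValid3 ⟨B, W, K, cap⟩ := by
  apply andValid3_of_items hchk [⟨B, insert t W, K', cap'⟩] (by simpa using h) []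
    (by intro D hD; simp at hD)
  intro y hyB
  by_cases hy : y = t
  · subst hy
    right; left
    refine ⟨htK, _, List.mem_singleton.2 rfl, Finset.Subset.refl _, ?_, hKK, ?_⟩
    · simp
    · intro L hL hd
      simpa using hcap L hL hd
  · left
    exact ⟨t, htK, htW, fun h => hy h.symm, h5⟩

/-- Use of an item at an OR node. -/
theorem valid3_of_item {B W K : Finset Cell} {cap : Finset Cell → ℕ} {D : Data}
    (hV : Valid3 D) (hDB : D.B ⊆ B) (hWK : Disjoint (W \ D.W) D.K) (hKK : D.K ⊆ K)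
    (hcap : ∀ L, IsLine L → Disjoint L B → (L ∩ (W \ D.W)).card + ceff K cap L ≤ D.cap L) :
    Valid3 ⟨B, W, K, cap⟩ := by
  intro d
  obtain ⟨n, hn⟩ := hV d
  refine ⟨n, fun P hdP b w hE => ?_⟩
  simp only at hE
  have htr : Ctx3 D.B D.W D.K D.cap P (b ∪ ∅) (w ∪ ∅) := by
    refine Ctx3.transfer (Z := ∅) (Q := ∅) hKK (Finset.disjoint_empty_left _) ?_ hE ?_
      (Finset.disjoint_empty_left _) (Finset.disjoint_empty_right _)
      (Finset.disjoint_empty_right _) (Finset.disjoint_empty_right _) ?_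
    · rw [Finset.union_empty]; exact hWK
    · rw [Finset.union_empty]; exact hDB.trans hE.basic.1
    · intro L hL hd
      rw [Finset.union_empty] at hd ⊢
      exact hcap L hL (Finset.disjoint_of_subset_right hE.basic.1 hd)
  have := hn P hdP _ _ htr
  rwa [Finset.union_empty, Finset.union_empty] at this

/-- Weakening of the constraints. -/
theorem Valid3.weaken {B W K K' : Finset Cell} {cap cap' : Finset Cell → ℕ}
    (hKK : K' ⊆ K) (hcap : ∀ L, IsLine L → Disjoint L B → ceff K cap L ≤ cap' L)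
    (h : Valid3 ⟨B, W, K', cap'⟩) : Valid3 ⟨B, W, K, cap⟩ := by
  apply valid3_of_item h (Finset.Subset.refl _) _ hKK
  · intro L hL hd
    simp only
    rw [Finset.sdiff_self, Finset.inter_empty, Finset.card_empty, Nat.zero_add]
    exact hcap L hL hd
  · simp only
    rw [Finset.sdiff_self]; exact Finset.disjoint_empty_left _

/-- FIVE rule for lines. -/
theorem validL_of_five {B W K : Finset Cell} {cap : Finset Cell → ℕ} {c : Cell}
    (hcW : c ∉ W) (hcK : c ∈ K) (h : HasFive (insert c B)) :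
    ValidL ⟨B, W, K, cap⟩ := by
  refine ⟨1, fun b w P hE => ?_⟩
  obtain ⟨hB, hbw, hXK⟩ := hE.basic
  refine win_of_imm hB h ?_ 0
  intro h1
  exact Finset.disjoint_left.1 hXK (Finset.mem_sdiff.2 ⟨h1, hcW⟩) hcK

/-- The OR node of a line: Black plays `c`. -/
theorem validL_of_and {B W K K' : Finset Cell} {cap cap' : Finset Cell → ℕ} {c : Cell}
    (hcW : c ∉ W) (hcK : c ∈ K) (hKK : K' ⊆ K)
    (hcap : ∀ L, IsLine L → Disjoint L (insert c B) → ceff K cap L ≤ cap' L)
    (h : AndValidL ⟨insert c B, W, K', cap'⟩) : ValidL ⟨B, W, K, cap⟩ := by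
  obtain ⟨n, hn⟩ := h
  refine ⟨n + 1, fun b w R hE => ?_⟩
  simp only at hE hn
  obtain ⟨hB, hbw, hXK⟩ := hE.basic
  have main : ∀ z, z ∉ b → z ∉ w → (∀ p q, R = some (p, q) → p ≠ z ∧ q ≠ z) →
      insert c B ⊆ insert z b → Win (n+1) b w := by
    intro z hzb hzw hzP hsub
    apply Win.of_and hzb hzw
    have e : b ∪ {z} = insert z b := by
      rw [Finset.union_comm, ← Finset.insert_eq]
    have htr : CtxL (insert c B) W K' cap' (b ∪ {z}) (w ∪ ∅) R := by
      refine hE.transfer (Z := {z}) (Q := ∅) (by rwa [e]) hKK ?_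
        (Finset.disjoint_empty_right _) (Finset.disjoint_empty_right _) ?_ ?_ ?_
      · rw [Finset.disjoint_singleton_left]; exact hzw
      · rw [Finset.union_empty, Finset.sdiff_self]; exact Finset.disjoint_empty_left _
      · intro p q hP
        obtain ⟨h1, h2⟩ := hzP p q hP
        refine ⟨⟨?_, ?_⟩, Finset.notMem_empty _, Finset.notMem_empty _⟩
        · rwa [Finset.mem_singleton]
        · rwa [Finset.mem_singleton]
      · intro L hL hd
        rw [Finset.union_empty, Finset.sdiff_self, Finset.inter_empty, Finset.card_empty,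
          Nat.zero_add]
        apply hcap L hL
        rw [e] at hd
        exact Finset.disjoint_of_subset_right hsub hd
    have := hn _ _ R htr
    rwa [e, Finset.union_empty] at this
  by_cases hcb : c ∈ b
  · let S : Finset Cell := match R with
      | none => b ∪ w
      | some (p, q) => insert p (insert q (b ∪ w))
    obtain ⟨z, hz⟩ := exists_free S
    have hzbw : z ∉ b ∪ w := by
      rcases R with _ | ⟨p, q⟩
      · exact hz
      · exact fun h => hz (Finset.mem_insert_of_mem (Finset.mem_insert_of_mem h))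
    rw [Finset.mem_union, not_or] at hzbw
    refine main z hzbw.1 hzbw.2 ?_ ?_
    · intro p q hP
      subst hP
      constructor
      · rintro rfl
        exact hz (Finset.mem_insert_self _ _)
      · rintro rfl
        exact hz (Finset.mem_insert_of_mem (Finset.mem_insert_self _ _))
    · rw [Finset.insert_subset_iff]
      exact ⟨Finset.mem_insert_of_mem hcb, hB.trans (Finset.subset_insert _ _)⟩
  · refine main c hcb ?_ ?_ (Finset.insert_subset_insert _ hB)
    · intro h
      exact Finset.disjoint_left.1 hXK (Finset.mem_sdiff.2 ⟨h, hcW⟩) hcK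
    · intro p q hP
      subst hP
      obtain ⟨⟨hpq, hpK, hqK, -⟩, -⟩ := hE
      exact ⟨fun h => hpK (h ▸ hcK), fun h => hqK (h ▸ hcK)⟩

/-- The FOUR rule for lines. -/
theorem andValidL_four {B W K K' : Finset Cell} {cap cap' : Finset Cell → ℕ} {t : Cell}
    (htW : t ∉ W) (htK : t ∈ K) (h5 : HasFive (insert t B))
    (hchk : ∀ L, IsLine L → Disjoint L B → (L ∩ W).card + ceff K cap L ≤ 3)
    (hKK : K' ⊆ K) (hcap : ∀ L, IsLine L → Disjoint L B → ceff K cap L ≤ cap' L)
    (h : ValidL ⟨B, insert t W, K', cap'⟩) : AndValidL ⟨B, W, K, cap⟩ := by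
  obtain ⟨n, hn⟩ := h
  refine ⟨n + 1, fun b w R hE y hyb hyw => ?_⟩
  simp only at hE hn
  obtain ⟨hB, hbw, hXK⟩ := hE.basic
  refine ⟨hE.no_five hchk hyb, ?_⟩
  by_cases hy : y = t
  · subst hy
    have e : W ∪ {y} = insert y W := by
      rw [Finset.union_comm, ← Finset.insert_eq]
    have e2 : w ∪ {y} = insert y w := by
      rw [Finset.union_comm, ← Finset.insert_eq]
    have htr : CtxL B (insert y W) K' cap' (b ∪ ∅) (w ∪ {y}) R := by
      refine hE.transfer (Z := ∅) (Q := {y}) ?_ hKK (Finset.disjoint_empty_left _)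
        (Finset.disjoint_empty_left _) ?_ ?_ ?_ ?_
      · rw [Finset.union_empty]; exact hB
      · rw [Finset.disjoint_singleton_right]; exact hyb
      · rw [e, Finset.sdiff_self]; exact Finset.disjoint_empty_left _
      · intro p q hP
        subst hP
        obtain ⟨⟨hpq, hpK, hqK, -⟩, -⟩ := hE
        refine ⟨⟨Finset.notMem_empty _, Finset.notMem_empty _⟩, ?_, ?_⟩
        · rw [Finset.mem_singleton]; rintro rfl; exact hpK htK
        · rw [Finset.mem_singleton]; rintro rfl; exact hqK htK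
      · intro L hL hd
        rw [e, Finset.sdiff_self, Finset.inter_empty, Finset.card_empty, Nat.zero_add]
        apply hcap L hL
        rw [Finset.union_empty] at hd
        exact Finset.disjoint_of_subset_right hB hd
    have hw := hn _ _ R htr
    rw [Finset.union_empty, e2] at hw
    exact hw.mono (Nat.le_succ n)
  · refine win_of_imm hB h5 ?_ n
    rw [Finset.mem_insert, not_or]
    refine ⟨fun h => hy h.symm, fun h => ?_⟩
    exact Finset.disjoint_left.1 hXK (Finset.mem_sdiff.2 ⟨h, htW⟩) htK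

/-- the second semantics follows -/
theorem Valid3.valid2 {D : Data} (h : Valid3 D) : Valid2 D := by
  obtain ⟨n, hn⟩ := h 1
  refine ⟨n, fun b w P hE => ?_⟩
  rcases P with _ | ⟨p, q⟩
  · exact hn PT.none (Nat.zero_le _) b w hE
  · refine hn (PT.pair p q PT.none PT.none) (by simp [PT.dep]) b w ?_
    have r1 := hE.resolve1
    have r2 := hE.resolve2
    obtain ⟨h1, h2, h3, h4, h5, -, -⟩ := hE
    exact ⟨h1, ⟨h2, h3, h4⟩, h5, r1, r2⟩

/-- plain use of an item -/
theorem Valid3.plain {D : Data} (h : Valid3 D) : ∃ n, ∀ b w : Finset Cell, D.B ⊆ b →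
    Disjoint b w → Disjoint (w \ D.W) D.K → CapOK D.cap (w \ D.W) b → Win n b w := by
  obtain ⟨n, hn⟩ := h 0
  exact ⟨n, fun b w h1 h2 h3 h4 => hn PT.none le_rfl b w ⟨h1, h2, h3, h4⟩⟩

end Pool.Agent.Gomoku
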