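import Pool.Agent.Helper36.Gomoku.XItem
import Pool.Agent.Helper47.Gom4.XNode3

set_option autoImplicit false

namespace Pool.Agent.Gomoku

open Finset

/-! # Items of level 2 checked by the fast evaluator, third semantics

(adapted from `Pool.Agent.Helper36.Gomoku.XItem`) -/

/-- validity of an item at all allowed translations -/
def ItemValid3 (it : Item) : Prop :=
  1 ≤ it.g ∧ it.g ≤ 3 ∧
    ∀ off dx dy, dx ≤ it.mx → dy ≤ it.my → Valid3 (it.data off dx dy)

theorem ItemValid3.valid2 {it : Item} (h : ItemValid3 it) : ItemValid2 it :=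
  ⟨h.1, h.2.1, fun off dx dy h1 h2 => (h.2.2 off dx dy h1 h2).valid2⟩

theorem chkX_spec3 {fuel B W K C1 mx my dx dy N : ℕ}
    (h : chkX fuel B W K C1 mx my dx dy N = true) :
    dx ≤ mx ∧ dy ≤ my ∧ xBox B W K C1 mx my = true ∧ ∀ off : Cell, ∃ (s : St) (K' G : ℕ),
      s.b = Nat.shiftLeft B (Nat.add dx (Nat.mul 32 dy)) ∧
      s.w = Nat.shiftLeft W (Nat.add dx (Nat.mul 32 dy)) ∧ V3 off s K' G ∧
      Sub (xZone K' G) (Nat.shiftLeft K (Nat.add dx (Nat.mul 32 dy))) ∧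
      Sub (gC G) (Nat.shiftLeft C1 (Nat.add dx (Nat.mul 32 dy))) := by
  have h' : (((Nat.ble dx mx && Nat.ble dy my) && xBox B W K C1 mx my) &&
      RX.rec (motive := fun _ => Bool) false
        (fun _ K' G =>
          Bool.and
            (xSub (Nat.lor (Nat.xor K' XNIM) (xCells (Nat.land (Nat.shiftRight G 4228) XM)))
              (Nat.shiftLeft K (Nat.add dx (Nat.mul 32 dy))))
            (xSub (Nat.land (Nat.shiftRight G 132) XM)
              (Nat.shiftLeft C1 (Nat.add dx (Nat.mul 32 dy)))))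
        (evB (Nat.mod N 16) (Nat.shiftRight N 8) XNIM XVA 0 fun N1 F1 A1 Z1 =>
          evW (Nat.mod (Nat.shiftRight N 4) 16) N1 F1 A1 Z1 fun N2 F2 A2 Z2 =>
            Bool.rec (motive := fun _ => RX) RX.bad
              (evX fuel N2 (Nat.lor XHI (Nat.xor F1 XNIM)) F2 A2 F2 0)
              (Bool.and (Nat.beq Z2 0) (Bool.and
                (Nat.beq (Nat.xor F1 XNIM) (Nat.shiftLeft B (Nat.add dx (Nat.mul 32 dy))))
                (Nat.beq (Nat.xor F2 F1)
                  (Nat.shiftLeft W (Nat.add dx (Nat.mul 32 dy)))))))) = true := h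
  rw [Bool.and_eq_true, Bool.and_eq_true, Bool.and_eq_true] at h'
  obtain ⟨⟨⟨h1, h2⟩, h3⟩, h4⟩ := h'
  refine ⟨Nat.le_of_ble_eq_true h1, Nat.le_of_ble_eq_true h2, h3, ?_⟩
  obtain ⟨N', K', G, hev, hfin⟩ := rec_false h4
  have hfin' : (xSub (Nat.lor (Nat.xor K' XNIM) (xCells (Nat.land (Nat.shiftRight G 4228) XM)))
      (Nat.shiftLeft K (Nat.add dx (Nat.mul 32 dy))) &&
      xSub (Nat.land (Nat.shiftRight G 132) XM)
      (Nat.shiftLeft C1 (Nat.add dx (Nat.mul 32 dy)))) = true := hfin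
  rw [Bool.and_eq_true] at hfin'
  obtain ⟨hK, hC⟩ := hfin'
  obtain ⟨N1, F1, A1, Z1, hev1, hB⟩ := evB_spec _ hev
  obtain ⟨N2, F2, A2, Z2, hev2, hW⟩ := evW_spec _ hev1
  obtain ⟨hc, hev3⟩ := rec_bad hev2
  have hc' : (Nat.beq Z2 0 && (Nat.beq (Nat.xor F1 XNIM)
      (Nat.shiftLeft B (Nat.add dx (Nat.mul 32 dy))) &&
      Nat.beq (Nat.xor F2 F1) (Nat.shiftLeft W (Nat.add dx (Nat.mul 32 dy))))) = true := hc
  rw [Bool.and_eq_true, Bool.and_eq_true] at hc'
  obtain ⟨hZ, hb, hw⟩ := hc'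
  obtain ⟨hZ1, hW⟩ := hW (eq_of_beq hZ)
  obtain ⟨-, hB⟩ := hB hZ1
  intro off
  obtain ⟨s1, hR1, hw1, -⟩ := hB off St.empty Rep.start
  have hw1' : s1.w = 0 := hw1
  obtain ⟨s2, hR2, hb2, -⟩ := hW off s1 _ hR1
  have e1 : s1.b = Nat.xor F1 XNIM := hR1.black hw1'
  have e2 : s2.w = Nat.xor F2 F1 := hR1.white hR2 hw1' hb2
  rw [← e1] at hev3
  obtain ⟨-, -, -, hV⟩ := evX_sound3 _ _ _ _ _ _ _ _ _ _ s2 hR2 hev3
  refine ⟨s2, K', G, ?_, ?_, hV, xSub_sub hK, xSub_sub hC⟩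
  · rw [hb2, e1]; exact eq_of_beq hb
  · rw [e2]; exact eq_of_beq hw

theorem itemValid3_of_chkX {fuel B W K C1 mx my dx dy N : ℕ}
    (h : chkX fuel B W K C1 mx my dx dy N = true) :
    ItemValid3 ⟨B, W, K, C1, 0, 2, mx, my⟩ := by
  obtain ⟨hdx, hdy, hbox, hall⟩ := chkX_spec3 h
  have hbox := xBox_spec hbox
  refine ⟨by norm_num, by norm_num, fun off dx' dy' hdx' hdy' => ?_⟩
  have e1 := data_norm hbox (by norm_num) (by norm_num) (off := off) hdx' hdy'
  have e2 := data_norm hbox (by norm_num) (by norm_num)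
    (off := (off.1 + dx' - dx, off.2 + dy' - dy)) hdx hdy
  have e3 : ((off.1 + dx' - dx : ℤ) + dx, (off.2 + dy' - dy : ℤ) + dy) =
      (off.1 + dx', off.2 + dy') := by
    ext <;> simp
  simp only at e2
  rw [e3] at e2
  rw [e1, ← e2]
  obtain ⟨s, K', G, hb, hw, hV, hK, hC⟩ := hall (off.1 + dx' - dx, off.2 + dy' - dy)
  have hV2 := validV3_mono hK hC hV
  unfold dataV at hV2
  unfold Item.data capG Item.inst
  simp only
  rw [if_neg (by norm_num), ← hb, ← hw]
  apply hV2.weaken (Finset.Subset.refl _)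
  intro L _ _
  refine (min_le_left _ _).trans ?_
  unfold capV
  rw [if_pos rfl]
  by_cases d1 : InMask (off.1 + dx' - dx, off.2 + dy' - dy)
      (Nat.shiftLeft C1 (Nat.add dx (Nat.mul 32 dy))) L
  · rw [capOf_le_of_c1 d1, capOf_le_of_c1 d1]
  · refine capOf_le_g2.trans ?_
    unfold capOf
    rw [if_neg d1]
    split_ifs <;> omega

theorem XTb.valid3 {fuel : ℕ} {t : XTb} (h : t.all fuel = true) : ∀ i, ItemValid3 (t.get i) := by
  induction t with
  | leaf B W K C1 mx my dx dy N =>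
    intro i
    exact itemValid3_of_chkX h
  | node l r ihl ihr =>
    rw [XTb.all_node, Bool.and_eq_true] at h
    intro i
    rw [XTb.get_node]
    cases Nat.beq (Nat.mod i 2) 0
    · exact ihr h.2 _
    · exact ihl h.1 _

/-- the items with even numbers -/
theorem getXC_valid3 {t : XTb} {c : CTb} (ht : ∀ i, ItemValid3 (t.get i)) :
    ∀ i, Nat.beq (Nat.mod i 2) 0 = true → ItemValid3 (getXC t c i) := by
  intro i hi
  unfold getXC
  rw [hi]
  exact ht _

end Pool.Agent.Gomoku
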