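import Pool.Agent.Helper47.Gom3.XSpec
import Pool.Agent.Helper47.Gom2.Assemble

set_option autoImplicit false

namespace Pool.Agent.Gomoku

/-! # Fast evaluator of plain positions (executed by the kernel)

State `b F A` as in `XDefs`. -/

/-- an item, from the stream. Bit 0: library item (index 20 bits, dx 5, dy 5); bit 1: inline item
(number of black stones 4 bits, of white stones 4, stones 10 bits each, node of `evX`).
The continuation gets `N B W K C1`. -/
noncomputable def yGet (gt : ℕ → Item) (fx N : ℕ) (k : ℕ → ℕ → ℕ → ℕ → ℕ → RX) : RX :=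
  Bool.rec (motive := fun _ => RX)
    (evB (Nat.mod (Nat.shiftRight N 1) 16) (Nat.shiftRight N 9) XNIM XVA 0 fun N1 F1 A1 Z1 =>
      evW (Nat.mod (Nat.shiftRight N 5) 16) N1 F1 A1 Z1 fun N2 F2 A2 Z2 =>
        Bool.rec (motive := fun _ => RX) RX.bad
          (RX.rec (motive := fun _ => RX) RX.bad
            (fun N3 K' G => k N3 (Nat.xor F1 XNIM) (Nat.xor F2 F1)
              (Nat.lor (Nat.xor K' XNIM) (xCells (Nat.land (Nat.shiftRight G 4228) XM)))
              (Nat.land (Nat.shiftRight G 132) XM))
            (evX fx N2 (Nat.lor XHI (Nat.xor F1 XNIM)) F2 A2 F2 0))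
          (Nat.beq Z2 0))
    (Item.rec (motive := fun _ => RX)
      (fun B W K C1 _ _ mx my =>
        (fun dx dy =>
          Bool.rec (motive := fun _ => RX) RX.bad
            ((fun sh => k (Nat.shiftRight N 31) (Nat.shiftLeft B sh) (Nat.shiftLeft W sh)
              (Nat.shiftLeft K sh) (Nat.shiftLeft C1 sh)) (Nat.add dx (Nat.mul 32 dy)))
            (Bool.and (Nat.ble dx mx) (Nat.ble dy my)))
          (Nat.mod (Nat.shiftRight N 21) 32) (Nat.mod (Nat.shiftRight N 26) 32))
      (gt (Nat.mod (Nat.shiftRight N 1) 1048576)))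
    (Nat.beq (Nat.mod N 2) 0)

/-- take `m` white stones (10 bits each) out of the window masks. `R` = stones that may be taken.
The continuation gets `N A Z`; `Z` must be 0. -/
noncomputable def yRem (m : ℕ) : ℕ → ℕ → ℕ → ℕ → (ℕ → ℕ → ℕ → RX) → RX :=
  Nat.rec (motive := fun _ => ℕ → ℕ → ℕ → ℕ → (ℕ → ℕ → ℕ → RX) → RX)
    (fun N A _ Z k => k N A Z)
    (fun _ ih N A R Z k =>
      (fun c =>
        (fun bc D =>
          ih (Nat.shiftRight N 10) (Nat.lor (Nat.xor A D) (Nat.shiftRight D 4096)) (Nat.xor R bc)
            (Nat.lor Z (Nat.lor (Nat.xor (Nat.land R bc) bc) (Nat.shiftRight D 16516))) k)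
          (Nat.shiftLeft 1 c) (Nat.land A (Nat.shiftLeft XT4 (Nat.add c 4096))))
        (Nat.mod N 1024))
    m

/-- put `m` white stones (10 bits each) into the window masks. `X` = stones that must be put in.
The continuation gets `N A Z`; `Z` must be 0. -/
noncomputable def yAdd (m : ℕ) : ℕ → ℕ → ℕ → ℕ → (ℕ → ℕ → ℕ → RX) → RX :=
  Nat.rec (motive := fun _ => ℕ → ℕ → ℕ → ℕ → (ℕ → ℕ → ℕ → RX) → RX)
    (fun N A X Z k => k N A (Nat.lor X Z))
    (fun _ ih N A X Z k =>
      (fun c =>
        (fun bc =>
          ih (Nat.shiftRight N 10)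
            (Nat.lor A (Nat.shiftLeft (Nat.land A (Nat.shiftLeft XT4 c)) 4096)) (Nat.xor X bc)
            (Nat.lor Z (Nat.xor (Nat.land X bc) bc)) k)
          (Nat.shiftLeft 1 c))
        (Nat.mod N 1024))
    m

/-- the tree of protected pairs: bit 0: none; bit 1: pair (10 bits each), two subtrees.
`A` = window masks, `O` = cells that must not be used, `E` = windows whose cells are critical,
`Q` = cells of pairs. The continuation gets `N E Q`. -/
noncomputable def yT (C1 d : ℕ) : ℕ → ℕ → ℕ → ℕ → ℕ → (ℕ → ℕ → ℕ → RX) → RX :=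
  Nat.rec (motive := fun _ => ℕ → ℕ → ℕ → ℕ → ℕ → (ℕ → ℕ → ℕ → RX) → RX)
    (fun _ _ _ _ _ _ => RX.bad)
    (fun _ ih N A O E Q k =>
      (fun V E0 =>
        Bool.rec (motive := fun _ => RX)
          ((fun p q =>
            (fun bp bq both =>
              Bool.rec (motive := fun _ => RX) RX.bad
                ((fun Ap Aq O' =>
                  ih (Nat.shiftRight N 21)
                    (Nat.lor Aq (Nat.shiftLeft (Nat.land Aq (Nat.shiftLeft XT4 p)) 4096)) O'
                    (Nat.lor E (Nat.xor (Nat.lor E0 both) both)) (Nat.lor Q (Nat.lor bp bq))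
                    fun N1 E1 Q1 =>
                      ih N1 (Nat.lor Ap (Nat.shiftLeft (Nat.land Ap (Nat.shiftLeft XT4 q)) 4096)) O'
                        E1 Q1 k)
                  (Nat.xor (Nat.lor A (Nat.shiftLeft XT5 p)) (Nat.shiftLeft XT5 p))
                  (Nat.xor (Nat.lor A (Nat.shiftLeft XT5 q)) (Nat.shiftLeft XT5 q))
                  (Nat.lor O (Nat.lor bp bq)))
                (Nat.beq (Nat.lor (Nat.lor (Nat.land O (Nat.lor bp bq)) (Nat.land bp bq))
                  (Nat.xor (Nat.lor V both) both)) 0))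
              (Nat.shiftLeft 1 p) (Nat.shiftLeft 1 q)
              (Nat.shiftRight (Nat.land (Nat.shiftLeft XT5 p) (Nat.shiftLeft XT5 q)) 132))
            (Nat.mod (Nat.shiftRight N 1) 1024) (Nat.mod (Nat.shiftRight N 11) 1024))
          (Bool.rec (motive := fun _ => RX) RX.bad (k (Nat.shiftRight N 1) (Nat.lor E E0) Q)
            (Nat.beq V 0))
          (Nat.beq (Nat.mod N 2) 0))
        (Nat.lor (Nat.land (Nat.shiftRight A 8324) C1) (Nat.shiftRight A 12420))
        (Nat.lor (Nat.land (Nat.shiftRight A 4228) C1) (Nat.shiftRight A 8324)))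
    d

/-- the item `B W K C1` fits. Stream: number `m < 15` of stones to be taken out (4 bits), these
stones (10 bits each), tree of pairs; or 15 (4 bits), number of the stones that stay (6 bits), these
stones, tree of pairs. The continuation gets `N E Q`. -/
noncomputable def yFit (b F w A B W K C1 N : ℕ) (k : ℕ → ℕ → ℕ → RX) : RX :=
  (fun R =>
    Bool.rec (motive := fun _ => RX) RX.bad
      (Bool.rec (motive := fun _ => RX)
        (yRem (Nat.mod N 16) (Nat.shiftRight N 4) A R 0 fun N1 A1 Z =>
          Bool.rec (motive := fun _ => RX) RX.bad (yT C1 4 N1 A1 (Nat.lor F K) 0 0 k)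
            (Nat.beq Z 0))
        (yAdd (Nat.mod (Nat.shiftRight N 4) 64) (Nat.shiftRight N 10)
            (Nat.land A (Nat.shiftLeft XM 132)) (Nat.xor w R) 0 fun N1 A1 Z =>
          Bool.rec (motive := fun _ => RX) RX.bad (yT C1 4 N1 A1 (Nat.lor F K) 0 0 k)
            (Nat.beq Z 0))
        (Nat.beq (Nat.mod N 16) 15))
      (Nat.beq (Nat.lor (Nat.xor (Nat.lor B b) b) (Nat.land (Nat.xor w R) K)) 0))
    (Nat.land w W)

/-- `m` null items. Bit 0: item of level 2; bit 1: item of the second library (index 20 bits,
dx 5, dy 5). The continuation gets `N U`. -/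
noncomputable def yN (gt gc : ℕ → Item) (fx b F w A : ℕ) (k : ℕ → ℕ → RX) (m : ℕ) :
    ℕ → ℕ → RX :=
  Nat.rec (motive := fun _ => ℕ → ℕ → RX) k
    (fun _ ih N U =>
      Bool.rec (motive := fun _ => RX)
        (Item.rec (motive := fun _ => RX)
          (fun B W K _ _ _ mx my =>
            (fun dx dy =>
              (fun sh =>
                Bool.rec (motive := fun _ => RX) RX.bad
                  (ih (Nat.shiftRight N 31) (Nat.land U (Nat.shiftLeft K sh)))
                  (Bool.and (Bool.and (Nat.ble dx mx) (Nat.ble dy my))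
                    (Bool.and (Nat.beq (Nat.lor (Nat.shiftLeft B sh) b) b)
                      (Nat.beq (Nat.lor w (Nat.shiftLeft W sh)) (Nat.shiftLeft W sh)))))
                (Nat.add dx (Nat.mul 32 dy)))
              (Nat.mod (Nat.shiftRight N 21) 32) (Nat.mod (Nat.shiftRight N 26) 32))
          (gc (Nat.mod (Nat.shiftRight N 1) 1048576)))
        (yGet gt fx (Nat.shiftRight N 1) fun N1 B W K C1 =>
          yFit b F w A B W K C1 N1 fun N2 E Q =>
            ih N2 (Nat.land U (Nat.lor (Nat.lor K Q) (xCells0 E))))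
        (Nat.beq (Nat.mod N 2) 0))
    m

/-- the evaluator, Black to move. Stream of a node: bit 1: quiet move: `c` (10), number of null
patterns (4), of null lines (4), of groups (6), of null items (6), null patterns, null lines, null
items, groups. Bits 00: item. Bits 01: line (number of fours (4), fours, bit 0 and final five, or
bit 1 and node). -/
noncomputable def evY (gt gc : ℕ → Item) (fx n : ℕ) : ℕ → ℕ → ℕ → ℕ → ℕ → ℕ → RX :=
  Nat.rec (motive := fun _ => ℕ → ℕ → ℕ → ℕ → ℕ → ℕ → RX)
    (fun _ _ _ _ _ _ => RX.bad)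
    (fun _ ih N b F A _ _ =>
      (fun w =>
        Bool.rec (motive := fun _ => RX)
          -- quiet
          ((fun c =>
            (fun bc A1 =>
              (fun b1 F1 =>
                evO b1 F1
                  (fun N4 E _ Z =>
                    Bool.rec (motive := fun _ => RX) RX.bad
                      (evN b1 F1 A1
                        (fun N5 U _ _ =>
                          yN gt gc fx b1 F1 w A1
                            (fun N6 U' =>
                              evR ih b1 F1 A1 U' (Nat.mod (Nat.shiftRight N 19) 64) N6 F1 0 0)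
                            (Nat.mod (Nat.shiftRight N 25) 64) N5 U)
                        (Nat.mod (Nat.shiftRight N 15) 16) N4
                        (Nat.lor E (xCells0 (Nat.shiftRight A1 12420))) 0 0)
                      (Nat.beq Z 0))
                  (Nat.mod (Nat.shiftRight N 11) 16) (Nat.shiftRight N 31) XFM 0
                  (Nat.lor (Nat.land F bc) (Nat.shiftRight A1 16516)))
                (Nat.lor b bc) (Nat.lor F bc))
              (Nat.shiftLeft 1 c)
              (Nat.xor (Nat.lor A (Nat.shiftLeft XT5 c)) (Nat.shiftLeft XT5 c)))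
            (Nat.mod (Nat.shiftRight N 1) 1024))
          (Bool.rec (motive := fun _ => RX)
            -- a line
            (evL (Nat.mod (Nat.shiftRight N 2) 16) (Nat.shiftRight N 6) b F A 0
              fun N' b' F' A' _ =>
                Bool.rec (motive := fun _ => RX)
                  (ih (Nat.shiftRight N' 1) b' F' A' 0 0)
                  (evE (Nat.shiftRight N' 1) b' F' fun N'' _ => RX.ok N'' 0 0)
                  (Nat.beq (Nat.mod N' 2) 0))
            -- an item
            (yGet gt fx (Nat.shiftRight N 2) fun N1 B W K C1 =>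
              yFit b F w A B W K C1 N1 fun N2 _ _ => RX.ok N2 0 0)
            (Nat.beq (Nat.mod (Nat.shiftRight N 1) 2) 0))
          (Nat.beq (Nat.mod N 2) 0))
        (Nat.xor (Nat.xor F XNIM) (Nat.xor b XHI)))
    n

/-- check of a plain position. Stream: number of black stones (8 bits), of white stones (8), stones
(10 bits each), node. -/
noncomputable def chkY (gt gc : ℕ → Item) (fx fuel b w N : ℕ) : Bool :=
  RX.rec (motive := fun _ => Bool) false (fun _ _ _ => true)
    (evB (Nat.mod N 256) (Nat.shiftRight N 16) XNIM XVA 0 fun N1 F1 A1 Z1 =>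
      evW (Nat.mod (Nat.shiftRight N 8) 256) N1 F1 A1 Z1 fun N2 F2 A2 Z2 =>
        Bool.rec (motive := fun _ => RX) RX.bad
          (evY gt gc fx fuel N2 (Nat.lor XHI (Nat.xor F1 XNIM)) F2 A2 0 0)
          (Bool.and (Nat.beq Z2 0) (Bool.and (Nat.beq (Nat.xor F1 XNIM) b)
            (Nat.beq (Nat.xor F2 F1) w))))

/-- check of all positions of the table (the stream is the field `hd`) -/
noncomputable def PTb.allY (gt gc : ℕ → Item) (fx fuel : ℕ) (t : PTb) : Bool :=
  PTb.rec (motive := fun _ => Bool) (fun b w N _ => chkY gt gc fx fuel b w N)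
    (fun _ _ x y => Bool.and x y) t

end Pool.Agent.Gomoku
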