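import Pool.Agent.Helper47.Gom4.YDefs
import Pool.Agent.Helper47.Gom4.XItem3

set_option autoImplicit false

namespace Pool.Agent.Gomoku

/-! # Interface for the soundness of `evY` -/

/-- `A` represents the window masks of `x` -/
def RepA (off : Cell) (x : St) (A : ℕ) : Prop :=
  Rep off x (Nat.lor XHI x.b) (Nat.lor (Nat.lor x.b x.w) XNIM) A

/-- the state without white stones -/
def stripA (x : St) : St := ⟨x.b, 0, x.lv, 0, 0, 0, 0⟩

/-- a table all of whose items are valid at level 2 -/
def GoodX (gt : ℕ → Item) : Prop := ∀ i, ItemValid3 (gt i) ∧ (gt i).g = 2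

end Pool.Agent.Gomoku
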