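import Pool.Agent.Helper47.Gom4.YDefs

set_option autoImplicit false

namespace Pool.Agent.Gomoku

/-! # The evaluator of plain positions with references to other plain positions -/

/-- the evaluator, Black to move. Stream of a node: bit 1: quiet move: `c` (10), number of null
patterns (4), of null lines (4), of groups (6), of null items (6), null patterns, null lines, null
items, groups. Bits 00: bit 0 and item, or bit 1 and number (20) of a position of the table `gp`.
Bits 01: line (number of fours (4), fours, bit 0 and final five, or
bit 1 and node). -/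
noncomputable def evZ (gt gc : ℕ → Item) (gp : ℕ → ℕ × ℕ) (fx n : ℕ) : ℕ → ℕ → ℕ → ℕ → ℕ → ℕ → RX :=
  Nat.rec (motive := fun _ => ℕ → ℕ → ℕ → ℕ → ℕ → ℕ → RX)
    (fun _ _ _ _ _ _ => RX.bad)
    (fun _ ih N b F A _ _ =>
      (fun w =>
        Bool.rec (motive := fun _ => RX)
          -- quiet
          ((fun c =>
            (fun bc A1 =>
              (fun b1 F1 =>
                evO b1 F1
                  (fun N4 E _ Z =>
                    Bool.rec (motive := fun _ => RX) RX.bad
                      (evN b1 F1 A1
                        (fun N5 U _ _ =>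
                          yN gt gc fx b1 F1 w A1
                            (fun N6 U' =>
                              evR ih b1 F1 A1 U' (Nat.mod (Nat.shiftRight N 19) 64) N6 F1 0 0)
                            (Nat.mod (Nat.shiftRight N 25) 64) N5 U)
                        (Nat.mod (Nat.shiftRight N 15) 16) N4
                        (Nat.lor E (xCells0 (Nat.shiftRight A1 12420))) 0 0)
                      (Nat.beq Z 0))
                  (Nat.mod (Nat.shiftRight N 11) 16) (Nat.shiftRight N 31) XFM 0
                  (Nat.lor (Nat.land F bc) (Nat.shiftRight A1 16516)))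
                (Nat.lor b bc) (Nat.lor F bc))
              (Nat.shiftLeft 1 c)
              (Nat.xor (Nat.lor A (Nat.shiftLeft XT5 c)) (Nat.shiftLeft XT5 c)))
            (Nat.mod (Nat.shiftRight N 1) 1024))
          (Bool.rec (motive := fun _ => RX)
            -- a line
            (evL (Nat.mod (Nat.shiftRight N 2) 16) (Nat.shiftRight N 6) b F A 0
              fun N' b' F' A' _ =>
                Bool.rec (motive := fun _ => RX)
                  (ih (Nat.shiftRight N' 1) b' F' A' 0 0)
                  (evE (Nat.shiftRight N' 1) b' F' fun N'' _ => RX.ok N'' 0 0)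
                  (Nat.beq (Nat.mod N' 2) 0))
            -- an item or a position of the table
            (Bool.rec (motive := fun _ => RX)
              ((fun pr =>
                Bool.rec (motive := fun _ => RX) RX.bad (RX.ok (Nat.shiftRight N 23) 0 0)
                  (Bool.and (Nat.beq (Nat.lor b pr.1) b) (Nat.beq (Nat.lor w pr.2) pr.2)))
                (gp (Nat.mod (Nat.shiftRight N 3) 1048576)))
              (yGet gt fx (Nat.shiftRight N 3) fun N1 B W K C1 =>
                yFit b F w A B W K C1 N1 fun N2 _ _ => RX.ok N2 0 0)
              (Nat.beq (Nat.mod (Nat.shiftRight N 2) 2) 0))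
            (Nat.beq (Nat.mod (Nat.shiftRight N 1) 2) 0))
          (Nat.beq (Nat.mod N 2) 0))
        (Nat.xor (Nat.xor F XNIM) (Nat.xor b XHI)))
    n

/-- check of a plain position. Stream: number of black stones (8 bits), of white stones (8), stones
(10 bits each), node. -/
noncomputable def chkZ (gt gc : ℕ → Item) (gp : ℕ → ℕ × ℕ) (fx fuel b w N : ℕ) : Bool :=
  RX.rec (motive := fun _ => Bool) false (fun _ _ _ => true)
    (evB (Nat.mod N 256) (Nat.shiftRight N 16) XNIM XVA 0 fun N1 F1 A1 Z1 =>
      evW (Nat.mod (Nat.shiftRight N 8) 256) N1 F1 A1 Z1 fun N2 F2 A2 Z2 =>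
        Bool.rec (motive := fun _ => RX) RX.bad
          (evZ gt gc gp fx fuel N2 (Nat.lor XHI (Nat.xor F1 XNIM)) F2 A2 0 0)
          (Bool.and (Nat.beq Z2 0) (Bool.and (Nat.beq (Nat.xor F1 XNIM) b)
            (Nat.beq (Nat.xor F2 F1) w))))

/-- check of all positions of the table (the stream is the field `hd`) -/
noncomputable def PTb.allZ (gt gc : ℕ → Item) (gp : ℕ → ℕ × ℕ) (fx fuel : ℕ) (t : PTb) : Bool :=
  PTb.rec (motive := fun _ => Bool) (fun b w N _ => chkZ gt gc gp fx fuel b w N)
    (fun _ _ x y => Bool.and x y) t

end Pool.Agent.Gomoku
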