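import Pool.Agent.Helper47.Gom4.ZDefs
import Pool.Agent.Helper58.Gomoku.YNode

set_option autoImplicit false

namespace Pool.Agent.Gomoku

open Finset

/-! # Soundness of `evZ` (adapted from helper58's proof for `evY`) -/

theorem evZ_zero (gt gc : ℕ → Item) (gp : ℕ → ℕ × ℕ) (fx N b F A K G : ℕ) : evZ gt gc gp fx 0 N b F A K G = RX.bad :=
  rfl

theorem evZ_succ (gt gc : ℕ → Item) (gp : ℕ → ℕ × ℕ) (fx n N b F A K G : ℕ) : evZ gt gc gp fx (n + 1) N b F A K G =
    (fun w =>
        Bool.rec (motive := fun _ => RX)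
          ((fun c =>
            (fun bc A1 =>
              (fun b1 F1 =>
                evO b1 F1
                  (fun N4 E _ Z =>
                    Bool.rec (motive := fun _ => RX) RX.bad
                      (evN b1 F1 A1
                        (fun N5 U _ _ =>
                          yN gt gc fx b1 F1 w A1
                            (fun N6 U' =>
                              evR (evZ gt gc gp fx n) b1 F1 A1 U'
                                (Nat.mod (Nat.shiftRight N 19) 64) N6 F1 0 0)
                            (Nat.mod (Nat.shiftRight N 25) 64) N5 U)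
                        (Nat.mod (Nat.shiftRight N 15) 16) N4
                        (Nat.lor E (xCells0 (Nat.shiftRight A1 12420))) 0 0)
                      (Nat.beq Z 0))
                  (Nat.mod (Nat.shiftRight N 11) 16) (Nat.shiftRight N 31) XFM 0
                  (Nat.lor (Nat.land F bc) (Nat.shiftRight A1 16516)))
                (Nat.lor b bc) (Nat.lor F bc))
              (Nat.shiftLeft 1 c)
              (Nat.xor (Nat.lor A (Nat.shiftLeft XT5 c)) (Nat.shiftLeft XT5 c)))
            (Nat.mod (Nat.shiftRight N 1) 1024))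
          (Bool.rec (motive := fun _ => RX)
            (evL (Nat.mod (Nat.shiftRight N 2) 16) (Nat.shiftRight N 6) b F A 0
              fun N' b' F' A' _ =>
                Bool.rec (motive := fun _ => RX)
                  (evZ gt gc gp fx n (Nat.shiftRight N' 1) b' F' A' 0 0)
                  (evE (Nat.shiftRight N' 1) b' F' fun N'' _ => RX.ok N'' 0 0)
                  (Nat.beq (Nat.mod N' 2) 0))
            (Bool.rec (motive := fun _ => RX)
              ((fun pr =>
                Bool.rec (motive := fun _ => RX) RX.bad (RX.ok (Nat.shiftRight N 23) 0 0)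
                  (Bool.and (Nat.beq (Nat.lor b pr.1) b) (Nat.beq (Nat.lor w pr.2) pr.2)))
                (gp (Nat.mod (Nat.shiftRight N 3) 1048576)))
              (yGet gt fx (Nat.shiftRight N 3) fun N1 B W K C1 =>
                yFit b F w A B W K C1 N1 fun N2 _ _ => RX.ok N2 0 0)
              (Nat.beq (Nat.mod (Nat.shiftRight N 2) 2) 0))
            (Nat.beq (Nat.mod (Nat.shiftRight N 1) 2) 0))
          (Nat.beq (Nat.mod N 2) 0))
        (Nat.xor (Nat.xor F XNIM) (Nat.xor b XHI)) := rfl

theorem evZ_sound {off : Cell} {gt gc : ℕ → Item} {gp : ℕ → ℕ × ℕ} (hgt : GoodX gt)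
    (hgc : ∀ i, ItemValid2 (gc i)) (hgp : ∀ i, PGood (gp i)) (fx : ℕ) :
    ∀ (n N b F A K G N' K' G' : ℕ) (s : St), Rep off s b F A →
      evZ gt gc gp fx n N b F A K G = RX.ok N' K' G' →
      ∃ M, Win M (dec off s.b) (dec off s.w) := by
  intro n
  induction n with
  | zero =>
    intro N b F A K G N' K' G' s _ hev
    rw [evZ_zero] at hev
    simp at hev
  | succ n ih =>
    intro N b F A K G N' K' G' s hR hev
    rw [evZ_succ] at hev
    simp only [hR.wEq] at hev
    have hI := hR.inv
    cases hb : Nat.beq (Nat.mod N 2) 0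
    · -- a quiet move
      rw [hb] at hev
      simp only at hev
      generalize hcdef : Nat.mod (Nat.shiftRight N 1) 1024 = c at hev
      have hc : c < 1024 := by rw [← hcdef]; exact Nat.mod_lt _ (by norm_num)
      generalize hA1 : Nat.xor (Nat.lor A (Nat.shiftLeft XT5 c)) (Nat.shiftLeft XT5 c) = A1 at hev
      obtain ⟨N1, E1, K1, Z1, hk, -, hZ⟩ := evO_spec _ hev
      clear hev
      obtain ⟨hbz, hk⟩ := rec_bad hk
      obtain ⟨hZ0, hnull⟩ := hZ (eq_of_beq hbz)
      obtain ⟨hl1, hl2⟩ := lor_eq_zero hZ0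
      have hfree : isFree s c = true := hR.free hc hl1
      obtain ⟨hin, hbb, hww⟩ := isFree_spec hc hfree
      have hR1 := hR.addB hc hfree
      rw [hA1] at hR1
      have h4 : (s.addB c).a4 = 0 := hR1.no4 hl2
      obtain ⟨hnO, hnO'⟩ := hnull off (s.addB c) A1 hR1
      have hI1 := hR1.inv
      obtain ⟨N2, U2, K2, G2, hk2, -, -, hU2, hU2'⟩ := evN_spec _ hR1 hk
      clear hk
      -- the null patterns and lines
      have hcov : CovF off (s.addB c) U2 := by
        apply covF_of_bits
        · intro i hi hUi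
          rcases hU2 i hUi with h5 | ⟨O, hO, hOi⟩
          · rw [tb_lor, Bool.or_eq_false_iff] at h5
            rcases hnO i h5.1 with h6 | ⟨O, hO, hOi⟩
            · exfalso
              rw [XFM_eq, fm_onBoard i hi] at h6
              simp at h6
            · obtain ⟨M, hM⟩ := covQ_nullOp hR1 h4 hO
              exact ⟨_, M, hM, by rw [tb_lor, hOi, h5.2]; rfl⟩
          · obtain ⟨M, hM⟩ := covQ_nullLn hI1 hO
            exact ⟨_, M, hM, hOi⟩
        · rcases hU2' with h5 | ⟨O, hO⟩
          · rcases hnO' with h6 | ⟨O, hO⟩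
            · right
              intro i hi
              rw [h5, tb_lor, h6, XFM_eq, fm_onBoard i hi]; rfl
            · obtain ⟨M, hM⟩ := covQ_nullOp hR1 h4 hO
              exact Or.inl ⟨_, M, hM⟩
          · obtain ⟨M, hM⟩ := covQ_nullLn hI1 hO
            exact Or.inl ⟨_, M, hM⟩
      have hk2' : yN gt gc fx (Nat.lor b (Nat.shiftLeft 1 c)) (Nat.lor F (Nat.shiftLeft 1 c))
          (s.addB c).w A1 (fun N6 U' => evR (evZ gt gc gp fx n) (Nat.lor b (Nat.shiftLeft 1 c))
            (Nat.lor F (Nat.shiftLeft 1 c)) A1 U' (Nat.mod (Nat.shiftRight N 19) 64) N6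
            (Nat.lor F (Nat.shiftLeft 1 c)) 0 0) (Nat.mod (Nat.shiftRight N 25) 64) N2 U2 =
          RX.ok N' K' G' := hk2
      obtain ⟨N3, U3, hk3, hcov3⟩ := yN_gen hgt hgc hR1 (P := CovF off (s.addB c))
        (fun U O h1 h2 => h1.land h2) _ hk2' hcov
      clear hk2 hk2'
      obtain ⟨I, M1, r3, r4⟩ := evR_soundY (f := evZ gt gc gp fx n) ih hR1 U3 _ _ _ _ _ _ _ _
        hR1.nim hk3
      clear hk3
      rcases hcov3 with ⟨M2, hM2⟩ | hfull
      · have hins : dec off (s.addB c).b = insert (cellOf off c) (dec off s.b) := dec_insert hc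
        refine ⟨max M1 M2 + 1, Win.of_and (b := cellOf off c) ?_ ?_ ?_⟩
        · rw [cellOf_mem_dec hc, hbb]; simp
        · rw [cellOf_mem_dec hc, hww]; simp
        · intro y hy1 hy2
          rw [← hins] at hy1 ⊢
          refine ⟨notHasFive_insertQ hI1 h4 hy1, ?_⟩
          by_cases hyU : y ∈ dec off U3
          · obtain ⟨i, hi, hUi, rfl⟩ := mem_dec.1 hyU
            obtain ⟨h5, h6⟩ := r4 i hUi
            have hyb : ¬ (s.addB c).b.testBit i = true := by
              rwa [cellOf_mem_dec hi] at hy1
            have hyw : ¬ (s.addB c).w.testBit i = true := by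
              rw [cellOf_mem_dec hi] at hy2; exact hy2
            rcases h6 with h6 | ⟨s', hs', h6⟩
            · exfalso
              rw [hR1.F, tb_lor, tb_lor, h5, Bool.or_false, Bool.or_eq_true] at h6
              rcases h6 with h6 | h6
              · exact hyb h6
              · exact hyw h6
            · obtain ⟨q1, q2, q3⟩ := r3 s' hs'
              rcases h6 with h6 | h6
              · exfalso
                rw [q1] at h6
                exact hyb h6
              · rw [q1] at q3
                refine (q3.anti_w ?_).mono (le_max_left _ _)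
                rw [Finset.insert_subset_iff]
                exact ⟨(cellOf_mem_dec hi).2 h6, Sub.dec q2 off⟩
          · exact (hM2 y hy1 hy2 hyU).mono (le_max_right _ _)
      · exfalso
        have h8 := (r4 0 (hfull 0 (by norm_num))).1
        rw [XNIM_eq] at h8
        exact absurd h8 (by decide +kernel)
    · rw [hb] at hev
      simp only at hev
      cases hb1 : Nat.beq (Nat.mod (Nat.shiftRight N 1) 2) 0
      · -- a line
        rw [hb1] at hev
        simp only at hev
        obtain ⟨N1, b1, F1, A1, C1, s1, hR1, hfo, -, hk⟩ := evL_spec _ hR hev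
        cases hb2 : Nat.beq (Nat.mod N1 2) 0
        · rw [hb2] at hk
          simp only at hk
          obtain ⟨M, hM⟩ := ih _ _ _ _ _ _ _ _ _ s1 hR1 hk
          exact hfo.winY hI hM
        · rw [hb2] at hk
          simp only at hk
          obtain ⟨c, hc, -⟩ := evE_spec hR1 hk
          exact hfo.winY hI (Five.winY hc)
      · rw [hb1] at hev
        simp only at hev
        cases hb2 : Nat.beq (Nat.mod (Nat.shiftRight N 2) 2) 0
        · -- a position of the table
          rw [hb2] at hev
          simp only at hev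
          obtain ⟨hc, -⟩ := rec_bad hev
          have hc' : (Nat.beq (Nat.lor b (gp (Nat.mod (Nat.shiftRight N 3) 1048576)).1) b &&
              Nat.beq (Nat.lor s.w (gp (Nat.mod (Nat.shiftRight N 3) 1048576)).2)
                (gp (Nat.mod (Nat.shiftRight N 3) 1048576)).2) = true := hc
          rw [Bool.and_eq_true] at hc'
          obtain ⟨c1, c2⟩ := hc'
          obtain ⟨M, hM⟩ := hgp (Nat.mod (Nat.shiftRight N 3) 1048576) off
          refine ⟨M, Win.mono_b (hM.anti_w (dec_sub_of_lor (eq_of_beq c2))) ?_ hI.disj⟩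
          intro c hc
          obtain ⟨i, hi, hbit, rfl⟩ := mem_dec.1 hc
          rw [cellOf_mem_dec hi]
          have h1 : (Nat.lor b (gp (Nat.mod (Nat.shiftRight N 3) 1048576)).1).testBit i = true := by
            rw [tb_lor, hbit, Bool.or_true]
          rw [eq_of_beq c1, hR.b, tb_lor, XHI_low i (by omega), Bool.false_or] at h1
          exact h1
        · -- an item
          rw [hb2] at hev
          simp only at hev
          obtain ⟨N1, B, W, K, C1, h1, hV⟩ := yGet_spec hgt hev
          obtain ⟨N2, E, Q, T, -, h2, -⟩ := yFit_spec hR h1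
          obtain ⟨M, hM⟩ := hV off T.dep
          exact ⟨M, hM T (le_refl _) _ _ h2⟩

/-! ### The table -/

theorem chkZ_sound {gt gc : ℕ → Item} {gp : ℕ → ℕ × ℕ} (hgt : GoodX gt)
    (hgc : ∀ i, ItemValid2 (gc i)) (hgp : ∀ i, PGood (gp i)) {fx fuel b w N : ℕ} (h : chkZ gt gc gp fx fuel b w N = true) : PGood (b, w) := by
  intro off
  unfold chkZ at h
  obtain ⟨N', K', G', hev, -⟩ := rec_false h
  obtain ⟨N1, F1, A1, Z1, hev1, hB⟩ := evB_spec _ hev
  obtain ⟨N2, F2, A2, Z2, hev2, hW⟩ := evW_spec _ hev1
  obtain ⟨hc, hev3⟩ := rec_bad hev2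
  have hc' : (Nat.beq Z2 0 && (Nat.beq (Nat.xor F1 XNIM) b && Nat.beq (Nat.xor F2 F1) w)) = true :=
    hc
  simp only [Bool.and_eq_true] at hc'
  obtain ⟨c1, c2, c3⟩ := hc'
  obtain ⟨hZ1, hW⟩ := hW (eq_of_beq c1)
  obtain ⟨-, hB⟩ := hB hZ1
  obtain ⟨s1, hR1, hw1, -⟩ := hB off St.empty Rep.start
  have hw1' : s1.w = 0 := hw1
  obtain ⟨s2, hR2, hb2, -⟩ := hW off s1 _ hR1
  have e1 : s1.b = Nat.xor F1 XNIM := hR1.black hw1'
  have e2 : s2.w = Nat.xor F2 F1 := hR1.white hR2 hw1' hb2
  rw [← e1] at hev3
  obtain ⟨M, hM⟩ := evZ_sound hgt hgc hgp fx _ _ _ _ _ _ _ _ _ _ s2 hR2 hev3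
  refine ⟨M, ?_⟩
  rw [hb2, e1, e2, eq_of_beq c2, eq_of_beq c3] at hM
  exact hM

theorem PTb.validZ {gt gc : ℕ → Item} {gp : ℕ → ℕ × ℕ} (hgt : GoodX gt)
    (hgc : ∀ i, ItemValid2 (gc i)) (hgp : ∀ i, PGood (gp i)) {fx fuel : ℕ} {t : PTb} (h : t.allZ gt gc gp fx fuel = true) : t.Good := by
  induction t with
  | leaf b w hd cert =>
    intro i
    exact chkZ_sound hgt hgc hgp h
  | node l r ihl ihr =>
    have h' : (l.allZ gt gc gp fx fuel && r.allZ gt gc gp fx fuel) = true := h
    rw [Bool.and_eq_true] at h'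
    exact PTb.Good.node (ihl h'.1) (ihr h'.2)

end Pool.Agent.Gomoku
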